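import Pool.Agent.Lib.MP_d3b8e5_co.Lower
import Pool.Agent.Lib.MP_d3b8e5_co.FanCount

set_option autoImplicit false

namespace Pool.Agent.Results.MP_d3b8e5_co.MinCrossings

open Pool.Agent.Lib.MP_d3b8e5_co

/-- The least crossing number of a subgraph of `K_{m,n}` with `2 n + u` edges is
`k u - (m - 2) k (k + 1)` with `k = ⌊u / (2 (m - 2))⌋`, for `u ≤ n`, and for `u ≤ 2 n` if `m` is
even. -/
theorem result : ∀ m n u : ℕ, 3 ≤ m → (u ≤ n ∨ (Even m ∧ u ≤ 2 * n)) → ∃ c : ℕ,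
    IsLeast {x : ℕ∞ | ∃ G : SimpleGraph (Fin m ⊕ Fin n),
      G ≤ completeBipartiteGraph (Fin m) (Fin n) ∧ G.edgeSet.ncard = 2 * n + u ∧ cr G = x} c ∧
    (c : ℤ) = ((u : ℤ) / (2 * (m - 2))) * u -
      (m - 2) * (((u : ℤ) / (2 * (m - 2))) * ((u : ℤ) / (2 * (m - 2)) + 1)) := by
  intro m n u hm hu
  obtain ⟨h, rfl⟩ : ∃ h, m = h + 2 := ⟨m - 2, by omega⟩
  have h0 : 0 < h := by omega
  have hs := sum_div_two_mul h u
  have low : ∀ G : SimpleGraph (Fin (h + 2) ⊕ Fin n),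
      G ≤ completeBipartiteGraph (Fin (h + 2)) (Fin n) → G.edgeSet.ncard = 2 * n + u →
      ((∑ v ∈ Finset.range u, v / (2 * h) : ℕ) : ℕ∞) ≤ cr G := by
    intro G hG he
    refine le_trans ?_ (cr_lower (by simpa using hm) hG (u / (2 * h)))
    simp only [Fintype.card_fin, he, Nat.add_sub_cancel]
    have e1 : u / (2 * h) * (2 * n + u) = 2 * (u / (2 * h)) * n + u / (2 * h) * u := by ring
    exact_mod_cast (by omega)
  have he : u - n = 0 ∨ Even h := by
    rcases hu with c | c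
    · exact Or.inl (by omega)
    · exact Or.inr (by have := c.1; rw [Nat.even_iff] at this ⊢; omega)
  have e1 : u - n + min u n = u := by omega
  have e2 := Fan.cyc_edges h n (u - n) (min u n) h0 he (by omega) (by omega)
  have e3 := Fan.cyc_card h n (u - n) (min u n) h0 he
  rw [e1] at e2 e3
  refine ⟨∑ v ∈ Finset.range u, v / (2 * h), ⟨⟨_, Fan.graph_le _, e2, le_antisymm
    ((Fan.cr_le _).trans (by exact_mod_cast e3)) (low _ (Fan.graph_le _) e2)⟩, ?_⟩, ?_⟩
  · rintro x ⟨G, hG, hG', rfl⟩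
    exact low G hG hG'
  · have e : ((h + 2 : ℕ) : ℤ) - 2 = h := by push_cast; ring
    have e' : ((u / (2 * h) : ℕ) : ℤ) = (u : ℤ) / (2 * h) := by push_cast; rfl
    rw [e, ← e']
    zify at hs
    push_cast at hs ⊢
    linarith

end Pool.Agent.Results.MP_d3b8e5_co.MinCrossings
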