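import Pool.Agent.Lib.MP_d3b8e5_co.Lower
import Pool.Agent.Lib.MP_d3b8e5_co.Upper

set_option autoImplicit false

namespace Pool.Agent.Results.MP_d3b8e5_co.Q2_K8q

open Pool.Agent.Lib.MP_d3b8e5_co

/-- The biplanar crossing number of `K_{8,q}` is `4⌊q/6⌋(q - 3⌊q/6⌋ - 3)`. -/
theorem result : ∀ q : ℕ, 1 ≤ q → ∃ c : ℕ,
    cr₂ (completeBipartiteGraph (Fin 8) (Fin q)) = (c : ℕ∞) ∧
      (c : ℤ) = 4 * ((q : ℤ) / 6) * ((q : ℤ) - 3 * ((q : ℤ) / 6) - 3) := by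
  intro q _
  have hs := sum_div_six q
  refine ⟨4 * ∑ j ∈ Finset.range q, j / 6, le_antisymm (cr₂_eight_le q) ?_, ?_⟩
  · refine le_trans ?_ (cr₂_lower (A := Fin 8) (B := Fin q) (by simp) (q / 6))
    simp only [Fintype.card_fin]
    have e1 : q / 6 * (8 * q) = 8 * (q / 6 * q) := by ring
    have e2 : 4 * (q / 6) * q = 4 * (q / 6 * q) := by ring
    exact_mod_cast (by omega)
  · have e : ((q / 6 : ℕ) : ℤ) = (q : ℤ) / 6 := by push_cast; rfl
    rw [← e]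
    zify at hs
    push_cast at hs ⊢
    linarith

end Pool.Agent.Results.MP_d3b8e5_co.Q2_K8q
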