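import Pool.Agent.Lib.MP_d3b8e5_co.Lower

set_option autoImplicit false

namespace Pool.Agent.Results.MP_d3b8e5_co.UnbalancedBound

open Pool.Agent.Lib.MP_d3b8e5_co

/-- Every bipartite graph with parts of sizes `m ≥ 3` and `n` and with `e` edges has crossing
number at least `k (e - 2 n) - (m - 2) k (k + 1)`, for every `k`. -/
theorem result : ∀ m n : ℕ, 3 ≤ m → ∀ G : SimpleGraph (Fin m ⊕ Fin n),
    G ≤ completeBipartiteGraph (Fin m) (Fin n) → ∀ k : ℕ,
      ((k * G.edgeSet.ncard : ℕ) : ℕ∞) ≤ cr G + ((2 * k * n + (m - 2) * (k * (k + 1)) : ℕ) : ℕ∞) := by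
  intro m n hm G hG k
  have h := cr_lower (A := Fin m) (B := Fin n) (by simpa using hm) hG k
  simp only [Fintype.card_fin] at h
  refine le_trans ?_ (add_le_add h le_rfl)
  exact_mod_cast (by omega)

end Pool.Agent.Results.MP_d3b8e5_co.UnbalancedBound
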